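import Mathlib

/-!
A topologizable group none of whose Hausdorff group topologies has a non-trivial convergent
sequence: the Heisenberg group of a countably saturated symmetric form over `ZMod 2`.
-/

set_option autoImplicit false

namespace Pool.Agent.H970Z.Seq

open Filter Topology

abbrev F2 := ZMod 2

theorem F2.cases (c : F2) : c = 0 ∨ c = 1 := by
  revert c; decide

section Abstract

variable {A : Type} [AddCommGroup A] [Module F2 A]

theorem eventually_zero (L : ℕ → A →ₗ[F2] F2) (h0 : ∀ f, ∀ᶠ n in atTop, L n f = 0)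
    (hsat : ∀ φ : ℕ → ℕ, (∀ N, ∃ f, ∀ j ≤ N, L (φ j) f = 1) → ∃ f, ∀ j, L (φ j) f = 1) :
    ∀ᶠ n in atTop, L n = 0 := by
  classical
  by_contra hcon
  have hfr : ∃ᶠ n in atTop, L n ≠ 0 := not_eventually.1 hcon
  have h1 : ∀ K : A →ₗ[F2] F2, ∀ᶠ n in atTop, L n = K → L n = 0 := by
    intro K
    by_cases hK : K = 0
    · exact Eventually.of_forall fun n h => h.trans hK
    · obtain ⟨f, hf⟩ : ∃ f, K f ≠ 0 := by
        by_contra h
        push Not at h
        exact hK (LinearMap.ext h)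
      filter_upwards [h0 f] with n hn h
      exact absurd (h ▸ hn) hf
  have step : ∀ (S : Finset ℕ) (N : ℕ), (∃ f, ∀ n ∈ S, L n f = 1) →
      ∃ m, N ≤ m ∧ ∃ f, ∀ n ∈ insert m S, L n f = 1 := by
    rintro S N ⟨f, hf⟩
    let P := Submodule.span F2 (Set.range fun i : S => L i)
    have hP : Finite P := by
      have : Module.Finite F2 P := Module.Finite.span_of_finite _ (Set.finite_range _)
      exact Module.finite_of_finite F2
    have h2 : ∀ᶠ n in atTop, ∀ K : P, L n = K → L n = 0 := eventually_all.2 fun K => h1 K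
    obtain ⟨m, hm0, hm1, hm2⟩ := (hfr.and_eventually (h2.and (eventually_ge_atTop N))).exists
    have h3 : L m ∉ P := fun h => hm0 (hm1 ⟨_, h⟩ rfl)
    have h4 : ¬ (⨅ i : S, LinearMap.ker (L i) ≤ LinearMap.ker (L m)) :=
      fun h => h3 (mem_span_of_iInf_ker_le_ker h)
    obtain ⟨g, hg1, hg2⟩ := SetLike.not_le_iff_exists.1 h4
    have hg3 : ∀ n ∈ S, L n g = 0 := fun n hn => (Submodule.mem_iInf _).1 hg1 ⟨n, hn⟩
    have hg4 : L m g = 1 := (F2.cases _).resolve_left hg2
    refine ⟨m, hm2, ?_⟩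
    rcases F2.cases (L m f) with h | h
    · refine ⟨f + g, fun n hn => ?_⟩
      rw [map_add]
      rcases Finset.mem_insert.1 hn with rfl | hn
      · rw [h, hg4, zero_add]
      · rw [hf n hn, hg3 n hn, add_zero]
    · refine ⟨f, fun n hn => ?_⟩
      rcases Finset.mem_insert.1 hn with rfl | hn
      · exact h
      · exact hf n hn
  choose! m hm1 hm2 using step
  let S : ℕ → Finset ℕ := fun j => Nat.rec ∅ (fun j T => insert (m T j) T) j
  have hS : ∀ j, S (j + 1) = insert (m (S j) j) (S j) := fun _ => rfl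
  have hS1 : ∀ j, ∃ f, ∀ n ∈ S j, L n f = 1 := by
    intro j
    induction j with
    | zero => exact ⟨0, fun n hn => absurd hn (Finset.notMem_empty n)⟩
    | succ j ih => exact hm2 _ j ih
  have hS2 : Monotone S := monotone_nat_of_le_succ fun j => by
    rw [hS]; exact Finset.subset_insert _ _
  obtain ⟨f, hf⟩ := hsat (fun j => m (S j) j) (fun N => by
    obtain ⟨f, hf⟩ := hS1 (N + 1)
    refine ⟨f, fun j hj => hf _ (hS2 (Nat.succ_le_succ hj) ?_)⟩
    rw [hS]; exact Finset.mem_insert_self _ _)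
  obtain ⟨N, hN⟩ := eventually_atTop.1 (h0 f)
  have h5 := hN _ (hm1 (S N) N (hS1 N))
  rw [hf N] at h5
  exact one_ne_zero h5

/-- the Heisenberg group of a bilinear form -/
@[ext] structure Heis (β : A →ₗ[F2] A →ₗ[F2] F2) where
  a : A
  f : A
  c : F2

variable {β : A →ₗ[F2] A →ₗ[F2] F2}

instance : Mul (Heis β) := ⟨fun g h => ⟨g.a + h.a, g.f + h.f, g.c + h.c + β g.a h.f⟩⟩
instance : One (Heis β) := ⟨⟨0, 0, 0⟩⟩
instance : Inv (Heis β) := ⟨fun g => ⟨-g.a, -g.f, -g.c + β g.a g.f⟩⟩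

@[simp] theorem mul_a (g h : Heis β) : (g * h).a = g.a + h.a := rfl
@[simp] theorem mul_f (g h : Heis β) : (g * h).f = g.f + h.f := rfl
@[simp] theorem mul_c (g h : Heis β) : (g * h).c = g.c + h.c + β g.a h.f := rfl
@[simp] theorem one_a : (1 : Heis β).a = 0 := rfl
@[simp] theorem one_f : (1 : Heis β).f = 0 := rfl
@[simp] theorem one_c : (1 : Heis β).c = 0 := rfl
@[simp] theorem inv_a (g : Heis β) : (g⁻¹).a = -g.a := rfl
@[simp] theorem inv_f (g : Heis β) : (g⁻¹).f = -g.f := rfl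
@[simp] theorem inv_c (g : Heis β) : (g⁻¹).c = -g.c + β g.a g.f := rfl

instance : Group (Heis β) :=
  Group.ofLeftAxioms
    (fun g h k => by
      ext
      · simp [add_assoc]
      · simp [add_assoc]
      · simp only [mul_c, mul_a, mul_f, map_add, LinearMap.add_apply]; ring)
    (fun g => by ext <;> simp)
    (fun g => by
      ext
      · simp
      · simp
      · simp only [mul_c, inv_a, inv_c, one_c, map_neg, LinearMap.neg_apply]; ring)

theorem comm_eq (g h : Heis β) : g * h * g⁻¹ * h⁻¹ = ⟨0, 0, β g.a h.f - β h.a g.f⟩ := by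
  ext
  · simp
  · simp
  · simp only [mul_c, mul_a, inv_a, inv_f, inv_c, map_add, map_neg, LinearMap.add_apply,
      LinearMap.neg_apply]
    ring

theorem no_seq (hsym : ∀ a b, β a b = β b a) (hnd : ∀ a, β a = 0 → a = 0)
    (hsat : ∀ a : ℕ → A, (∀ N, ∃ f, ∀ j ≤ N, β (a j) f = 1) → ∃ f, ∀ j, β (a j) f = 1)
    [TopologicalSpace (Heis β)] [IsTopologicalGroup (Heis β)] [T2Space (Heis β)]
    (u : ℕ → Heis β) (x : Heis β) (hu : Tendsto u atTop (𝓝 x)) : ∀ᶠ n in atTop, u n = x := by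
  let g : ℕ → Heis β := fun n => x⁻¹ * u n
  have hg : Tendsto g atTop (𝓝 1) := by
    have := hu.const_mul x⁻¹
    rwa [inv_mul_cancel] at this
  have hz : ∀ {v : ℕ → Heis β}, Tendsto v atTop (𝓝 1) → ∀ᶠ n in atTop, v n ≠ ⟨0, 0, 1⟩ := by
    intro v hv
    refine hv.eventually_ne fun h => ?_
    have := congrArg Heis.c h
    exact zero_ne_one this
  have hc : ∀ h : Heis β, ∀ᶠ n in atTop, β (g n).a h.f - β h.a (g n).f = 0 := by
    intro h
    have h1 : Tendsto (fun n => g n * h * (g n)⁻¹ * h⁻¹) atTop (𝓝 1) := by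
      have := ((hg.mul_const h).mul hg.inv).mul_const h⁻¹
      simpa using this
    filter_upwards [hz h1] with n hn
    rw [comm_eq] at hn
    exact (F2.cases _).resolve_right fun h2 => hn (by rw [h2])
  have ha := eventually_zero (fun n => β (g n).a) (fun f => by
    filter_upwards [hc ⟨0, f, 0⟩] with n hn
    simpa using hn) (fun φ => hsat fun j => (g (φ j)).a)
  have hf := eventually_zero (fun n => β (g n).f) (fun f => by
    filter_upwards [hc ⟨f, 0, 0⟩] with n hn
    rw [hsym]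
    simpa using hn) (fun φ => hsat fun j => (g (φ j)).f)
  filter_upwards [ha, hf, hz hg] with n h1 h2 h3
  have h4 : g n = 1 := by
    ext
    · exact hnd _ h1
    · exact hnd _ h2
    · refine (F2.cases _).resolve_right fun h => h3 ?_
      ext
      · exact hnd _ h1
      · exact hnd _ h2
      · exact h
  exact (inv_mul_eq_one.1 h4).symm

theorem topologizable [Infinite A] (hnd : ∀ a, β a = 0 → a = 0) :
    ∃ t : TopologicalSpace (Heis β), @IsTopologicalGroup _ t _ ∧ @T2Space _ t ∧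
      ¬ @DiscreteTopology _ t := by
  classical
  let U : Finset A → Set (Heis β) := fun F => {g | g.f = 0 ∧ g.c = 0 ∧ ∀ y ∈ F, β g.a y = 0}
  let B : GroupFilterBasis (Heis β) :=
    { sets := Set.range U
      nonempty := ⟨_, ∅, rfl⟩
      inter_sets := by
        rintro _ _ ⟨F, rfl⟩ ⟨F', rfl⟩
        exact ⟨_, ⟨F ∪ F', rfl⟩, fun g hg =>
          ⟨⟨hg.1, hg.2.1, fun y hy => hg.2.2 y (Finset.mem_union_left _ hy)⟩,
            ⟨hg.1, hg.2.1, fun y hy => hg.2.2 y (Finset.mem_union_right _ hy)⟩⟩⟩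
      one' := by
        rintro _ ⟨F, rfl⟩
        exact ⟨rfl, rfl, fun y _ => by simp⟩
      mul' := by
        rintro _ ⟨F, rfl⟩
        refine ⟨_, ⟨F, rfl⟩, ?_⟩
        rintro _ ⟨g, hg, h, hh, rfl⟩
        exact ⟨by simp [hg.1, hh.1], by simp [hg.2.1, hh.2.1, hh.1],
          fun y hy => by simp [hg.2.2 y hy, hh.2.2 y hy]⟩
      inv' := by
        rintro _ ⟨F, rfl⟩
        exact ⟨_, ⟨F, rfl⟩, fun g hg => ⟨by simp [hg.1], by simp [hg.1, hg.2.1],
          fun y hy => by simp [hg.2.2 y hy]⟩⟩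
      conj' := by
        rintro x _ ⟨F, rfl⟩
        refine ⟨_, ⟨insert x.f F, rfl⟩, fun g hg => ⟨by simp [hg.1], ?_, fun y hy => ?_⟩⟩
        · simp only [mul_c, mul_a, inv_f, inv_c, map_add, map_neg, map_zero, LinearMap.add_apply,
            hg.1, hg.2.1, hg.2.2 _ (Finset.mem_insert_self _ _)]
          ring
        · simp [hg.2.2 y (Finset.mem_insert_of_mem hy)] }
  refine ⟨B.topology, B.isTopologicalGroup, ?_, fun hd => ?_⟩
  · refine (@GroupFilterBasis.t2Space_iff_sInter_subset _ _ B.topology B rfl).2 fun g hg => ?_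
    have h1 : ∀ F, g ∈ U F := fun F => hg _ ⟨F, rfl⟩
    ext
    · exact hnd _ (LinearMap.ext fun y => (h1 {y}).2.2 y (Finset.mem_singleton_self y))
    · exact (h1 ∅).1
    · exact (h1 ∅).2.1
  · have h1 : ({1} : Set (Heis β)) ∈ @nhds _ B.topology 1 :=
      @IsOpen.mem_nhds _ B.topology _ _ (@isOpen_discrete _ B.topology hd _) rfl
    obtain ⟨_, ⟨F, rfl⟩, hF⟩ := B.nhds_one_hasBasis.mem_iff.1 h1
    obtain ⟨a, b, hab, h⟩ := Finite.exists_ne_map_eq_of_infinite (fun a : A => fun y : F => β a y)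
    have h2 : (⟨a - b, 0, 0⟩ : Heis β) ∈ U F := ⟨rfl, rfl, fun y hy => by
      have := congrFun h ⟨y, hy⟩
      simp only at this
      simp [this]⟩
    exact hab (sub_eq_zero.1 (congrArg Heis.a (hF h2)))

end Abstract

section Form

/-- limit along the hyperfilter -/
noncomputable def lim2 (u : ℕ → F2) : F2 := by
  classical
  exact if ∀ᶠ k in (hyperfilter ℕ : Filter ℕ), u k = 1 then 1 else 0

theorem lim2_spec (u : ℕ → F2) : ∀ᶠ k in (hyperfilter ℕ : Filter ℕ), u k = lim2 u := by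
  unfold lim2
  split_ifs with h
  · exact h
  · exact (Ultrafilter.eventually_not.2 h).mono fun k hk => (F2.cases _).resolve_right hk

theorem lim2_eq {u : ℕ → F2} {c : F2} (h : ∀ᶠ k in (hyperfilter ℕ : Filter ℕ), u k = c) :
    lim2 u = c := by
  obtain ⟨k, h1, h2⟩ := (h.and (lim2_spec u)).exists
  rw [← h1, h2]

abbrev V := ℕ → ℕ → F2

/-- the dot product at level `k` -/
def dot (a b : V) (k : ℕ) : F2 := ∑ i ∈ Finset.range k, a k i * b k i

theorem dot_comm (a b : V) : dot a b = dot b a := by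
  funext k
  exact Finset.sum_congr rfl fun i _ => mul_comm _ _

noncomputable def β₀ : V →ₗ[F2] V →ₗ[F2] F2 :=
  LinearMap.mk₂ F2 (fun a b => lim2 (dot a b))
    (fun a a' b => lim2_eq (by
      filter_upwards [lim2_spec (dot a b), lim2_spec (dot a' b)] with k h1 h2
      rw [← h1, ← h2]
      simp [dot, add_mul, Finset.sum_add_distrib]))
    (fun c a b => lim2_eq (by
      filter_upwards [lim2_spec (dot a b)] with k h1
      rw [← h1]
      simp [dot, Finset.mul_sum, mul_assoc]))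
    (fun a b b' => lim2_eq (by
      filter_upwards [lim2_spec (dot a b), lim2_spec (dot a b')] with k h1 h2
      rw [← h1, ← h2]
      simp [dot, mul_add, Finset.sum_add_distrib]))
    (fun c a b => lim2_eq (by
      filter_upwards [lim2_spec (dot a b)] with k h1
      rw [← h1]
      simp [dot, Finset.mul_sum, mul_left_comm]))

theorem β₀_apply (a b : V) : β₀ a b = lim2 (dot a b) := rfl

theorem β₀_comm (a b : V) : β₀ a b = β₀ b a := by rw [β₀_apply, β₀_apply, dot_comm]

theorem β₀_sat (a : ℕ → V) (h : ∀ N, ∃ f, ∀ j ≤ N, β₀ (a j) f = 1) :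
    ∃ f, ∀ j, β₀ (a j) f = 1 := by
  classical
  choose f hf using h
  let P : ℕ → ℕ → Prop := fun k N => ∀ j ≤ N, dot (a j) (f N) k = 1
  refine ⟨fun k => f (Nat.findGreatest (P k) k) k, fun j => lim2_eq ?_⟩
  have h1 : ∀ᶠ k in (hyperfilter ℕ : Filter ℕ), P k j := by
    have : ∀ᶠ k in (hyperfilter ℕ : Filter ℕ), ∀ i ∈ Set.Iic j, dot (a i) (f j) k = 1 :=
      (eventually_all_finite (Set.finite_Iic j)).2 fun i hi => by
        have h2 := lim2_spec (dot (a i) (f j))
        rwa [← β₀_apply, hf j i hi] at h2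
    exact this
  filter_upwards [h1, Nat.hyperfilter_le_atTop (eventually_ge_atTop j)] with k h2 h3
  exact Nat.findGreatest_spec h3 h2 j (Nat.le_findGreatest h3 h2)

abbrev Q := V ⧸ LinearMap.ker β₀

noncomputable def β₁ : Q →ₗ[F2] Q →ₗ[F2] F2 :=
  (LinearMap.ker β₀).liftQ ((LinearMap.ker β₀).liftQ β₀ le_rfl).flip (fun b hb => by
    refine LinearMap.ext fun q => ?_
    obtain ⟨a, rfl⟩ := Submodule.Quotient.mk_surjective _ q
    show β₀ a b = 0
    rw [β₀_comm, LinearMap.mem_ker.1 hb]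
    rfl)

theorem β₁_mk (a b : V) :
    β₁ (Submodule.Quotient.mk a) (Submodule.Quotient.mk b) = β₀ a b := β₀_comm b a

theorem β₁_comm (a b : Q) : β₁ a b = β₁ b a := by
  obtain ⟨a, rfl⟩ := Submodule.Quotient.mk_surjective _ a
  obtain ⟨b, rfl⟩ := Submodule.Quotient.mk_surjective _ b
  rw [β₁_mk, β₁_mk, β₀_comm]

theorem β₁_nd (a : Q) (h : β₁ a = 0) : a = 0 := by
  obtain ⟨a, rfl⟩ := Submodule.Quotient.mk_surjective _ a
  refine (Submodule.Quotient.mk_eq_zero _).2 (LinearMap.ext fun b => ?_)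
  rw [← β₁_mk, h]
  rfl

theorem β₁_sat (a : ℕ → Q) (h : ∀ N, ∃ f, ∀ j ≤ N, β₁ (a j) f = 1) :
    ∃ f, ∀ j, β₁ (a j) f = 1 := by
  choose b hb using fun j => Submodule.Quotient.mk_surjective _ (a j)
  obtain ⟨f, hf⟩ := β₀_sat b (fun N => by
    obtain ⟨f, hf⟩ := h N
    obtain ⟨f, rfl⟩ := Submodule.Quotient.mk_surjective _ f
    exact ⟨f, fun j hj => by rw [← β₁_mk, hb, hf j hj]⟩)
  exact ⟨Submodule.Quotient.mk f, fun j => by rw [← hb, β₁_mk, hf]⟩

instance : Infinite Q := by
  let e : ℕ → V := fun i _ => Pi.single i 1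
  have he : ∀ i j, β₀ (e i) (e j) = if i = j then 1 else 0 := by
    intro i j
    refine lim2_eq ?_
    filter_upwards [Nat.hyperfilter_le_atTop (eventually_gt_atTop i)] with k hk
    have hk' : i < k := hk
    rw [dot, Finset.sum_eq_single i (fun b _ hb => by simp [e, hb])
      (fun h => absurd (Finset.mem_range.2 hk') h)]
    simp [e, Pi.single_apply]
  refine Infinite.of_injective (fun i => (Submodule.Quotient.mk (e i) : Q)) fun i j h => ?_
  have h1 := β₁_mk (e i) (e j)
  simp only at h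
  rw [h, β₁_mk, he, he, if_pos rfl] at h1
  by_contra h2
  rw [if_neg h2] at h1
  exact one_ne_zero h1

end Form

theorem main : ∃ (G : Type) (_ : Group G),
    (∃ t : TopologicalSpace G, @IsTopologicalGroup G t _ ∧ @T2Space G t ∧
      ¬ @DiscreteTopology G t) ∧
    ∀ [TopologicalSpace G] [IsTopologicalGroup G] [T2Space G],
      (∀ (u : ℕ → G) (x : G), Tendsto u atTop (𝓝 x) → ∀ᶠ n in atTop, u n = x) ∧
      (SequentialSpace G → DiscreteTopology G) := by
  refine ⟨Heis β₁, inferInstance, topologizable β₁_nd, ?_⟩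
  intro _ _ _
  have h := no_seq β₁_comm β₁_nd β₁_sat
  refine ⟨h, fun _ => discreteTopology_iff_forall_isClosed.2 fun S => IsSeqClosed.isClosed ?_⟩
  intro u x hu hx
  obtain ⟨n, hn⟩ := (h u x hx).exists
  exact hn ▸ hu n

end Pool.Agent.H970Z.Seq
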